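import Pool.Agent.helper97.IRO.Spec

/-! # Row iro:G2: composition and inverse of germs -/

set_option autoImplicit false

open MeasureTheory Pool.Agent.LOF

namespace Pool.Agent.IRO

theorem G2_inv (g : ℝ ≃o ℝ) (w z : ℝ) (h : g w = z) : (g⁻¹ : ℝ ≃o ℝ) z = w := by
  show g.symm z = w
  rw [← h, OrderIso.symm_apply_apply]

theorem G2 : G2_stmt := by
  intro g h b k l
  have hk : (0 : ℝ) < 2 ^ k := by positivity
  have hl : (0 : ℝ) < 2 ^ l := by positivity
  have hk' : (0 : ℝ) < 2 ^ (-k) := by positivity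
  have hkk : (2 : ℝ) ^ k * 2 ^ (-k) = 1 := by
    rw [← zpow_add₀ (by norm_num), add_neg_cancel, zpow_zero]
  refine ⟨?_, ?_, ?_, ?_⟩
  · rintro ⟨e, he, h1⟩ ⟨f, hf, h2⟩
    refine ⟨max f (b + (e - b) / 2 ^ l), max_lt hf ?_, fun z hz hzb => ?_⟩
    · have : (e - b) / 2 ^ l < 0 := div_neg_of_neg_of_pos (by linarith) hl
      linarith
    · have h3 := (le_max_left _ _).trans_lt hz
      have h4 := (le_max_right _ _).trans_lt hz
      have h5 : (e - b) / 2 ^ l < z - b := by linarith
      rw [div_lt_iff₀ hl] at h5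
      show g (h z) = _
      rw [h2 z h3 hzb, h1]
      · rw [zpow_add₀ (by norm_num)]
        ring
      · linarith
      · have : 2 ^ l * (z - b) ≤ 0 := mul_nonpos_of_nonneg_of_nonpos hl.le (by linarith)
        linarith
  · rintro ⟨e, he, h1⟩
    refine ⟨b + 2 ^ k * (e - b), ?_, fun z hz hzb => ?_⟩
    · have : 2 ^ k * (e - b) < 0 := mul_neg_of_pos_of_neg hk (by linarith)
      linarith
    · refine G2_inv g _ _ ?_
      rw [h1]
      · have : b + 2 ^ k * (b + 2 ^ (-k) * (z - b) - b) = b + (2 ^ k * 2 ^ (-k)) * (z - b) := by ring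
        rw [this, hkk]
        ring
      · have h2 : 2 ^ (-k) * (2 ^ k * (e - b)) < 2 ^ (-k) * (z - b) :=
          mul_lt_mul_of_pos_left (by linarith) hk'
        have h3 : (2 : ℝ) ^ (-k) * (2 ^ k * (e - b)) = e - b := by
          rw [← mul_assoc, mul_comm ((2 : ℝ) ^ (-k)), hkk, one_mul]
        linarith
      · have : 2 ^ (-k) * (z - b) ≤ 0 := mul_nonpos_of_nonneg_of_nonpos hk'.le (by linarith)
        linarith
  · rintro ⟨e, he, h1⟩ ⟨f, hf, h2⟩
    refine ⟨min f (b + (e - b) / 2 ^ l), lt_min hf ?_, fun z hzb hz => ?_⟩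
    · have : 0 < (e - b) / 2 ^ l := div_pos (by linarith) hl
      linarith
    · have h3 := hz.trans_le (min_le_left _ _)
      have h4 := hz.trans_le (min_le_right _ _)
      have h5 : z - b < (e - b) / 2 ^ l := by linarith
      rw [lt_div_iff₀ hl] at h5
      show g (h z) = _
      rw [h2 z hzb h3, h1]
      · rw [zpow_add₀ (by norm_num)]
        ring
      · have : 0 ≤ 2 ^ l * (z - b) := mul_nonneg hl.le (by linarith)
        linarith
      · linarith
  · rintro ⟨e, he, h1⟩
    refine ⟨b + 2 ^ k * (e - b), ?_, fun z hzb hz => ?_⟩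
    · have : 0 < 2 ^ k * (e - b) := mul_pos hk (by linarith)
      linarith
    · refine G2_inv g _ _ ?_
      rw [h1]
      · have : b + 2 ^ k * (b + 2 ^ (-k) * (z - b) - b) = b + (2 ^ k * 2 ^ (-k)) * (z - b) := by ring
        rw [this, hkk]
        ring
      · have : 0 ≤ 2 ^ (-k) * (z - b) := mul_nonneg hk'.le (by linarith)
        linarith
      · have h2 : 2 ^ (-k) * (z - b) < 2 ^ (-k) * (2 ^ k * (e - b)) :=
          mul_lt_mul_of_pos_left (by linarith) hk'
        have h3 : (2 : ℝ) ^ (-k) * (2 ^ k * (e - b)) = e - b := by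
          rw [← mul_assoc, mul_comm ((2 : ℝ) ^ (-k)), hkk, one_mul]
        linarith

end Pool.Agent.IRO
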