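import Pool.Agent.helper97.IRO.Spec

/-! # Row iro:ME5 -/

set_option autoImplicit false

open MeasureTheory Pool.Agent.LOF

namespace Pool.Agent.IRO

theorem ME5_dy {a : ℝ} (ha : IsDyadic a) : IsDyadic (1 - a) := by
  have h := (IsDyadic.int 1).sub ha
  simpa using h

theorem ME5_dyi {a b : ℝ} (h : Dyi a b) : Dyi (1 - b) (1 - a) :=
  ⟨ME5_dy h.2.1, ME5_dy h.1, by linarith [h.2.2.2.2], by linarith [h.2.2.2.1], by linarith [h.2.2.1]⟩

theorem ME5 (h1 : ME1_stmt) (h2 : ME3_stmt) (h3 : ME4_stmt) (h4 : MI1_stmt) : ME5_stmt := by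
  intro ν _ hinv
  filter_upwards [h1 ν hinv, h2 ν hinv, (h3 ν hinv).1, (h3 ν hinv).2] with r hc hi h0 h1'
  rcases hi with hi | hi
  · exact Or.inl ⟨hc, hi, h0⟩
  · right
    obtain ⟨m1, m2⟩ := h4 r
    refine ⟨m1.2 hc, fun a b hab => ?_, ?_⟩
    · rw [(m2 a b).1]
      exact hi _ _ (ME5_dyi hab)
    · rcases h1' with h5 | h5
      · right
        intro b hb hb0 hb1
        rw [(m2 0 b).2, sub_zero]
        exact h5 (1 - b) (ME5_dy hb) (by linarith) (by linarith)
      · left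
        intro b hb hb0 hb1
        rw [(m2 0 b).1, sub_zero]
        exact h5 (1 - b) (ME5_dy hb) (by linarith) (by linarith)

end Pool.Agent.IRO
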